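import Pool.Agent.Y552.SJ.Stm

/-! Project SJ (helper552), job EVP: fixed vectors of positive matrices. -/

set_option autoImplicit false

namespace Pool.Agent.Y888.SJ.Evp

open Matrix Finset

/-- A nonnegative nonzero fixed vector is positive. -/
theorem pos_of_nonneg {q : ℕ} (M : Matrix (Fin q) (Fin q) ℝ) (v : Fin q → ℝ)
    (hM : ∀ i j, 0 < M i j) (hv : v ≠ 0) (hfix : ∀ i, ∑ j, M i j * v j = v i)
    (h0 : ∀ i, 0 ≤ v i) : ∀ i, 0 < v i := by
  intro i
  obtain ⟨j, hj⟩ := Function.ne_iff.1 hv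
  have hj' : 0 < v j := lt_of_le_of_ne (h0 j) (Ne.symm hj)
  rw [← hfix i]
  exact sum_pos' (fun k _ => mul_nonneg (hM i k).le (h0 k)) ⟨j, mem_univ j, mul_pos (hM i j) hj'⟩

theorem pow_nonneg' {q : ℕ} (M : Matrix (Fin q) (Fin q) ℝ) (hM : ∀ i j, 0 < M i j) (m : ℕ) :
    ∀ i j, 0 ≤ (M ^ m) i j := by
  induction m with
  | zero =>
    intro i j
    rw [pow_zero, Matrix.one_apply]
    split_ifs
    · exact zero_le_one
    · exact le_rfl
  | succ m ih =>
    intro i j
    rw [pow_succ, Matrix.mul_apply]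
    exact sum_nonneg fun k _ => mul_nonneg (ih i k) (hM k j).le

theorem growth {q : ℕ} (M : Matrix (Fin q) (Fin q) ℝ) (hM : ∀ i j, 0 < M i j) (u : Fin q → ℝ)
    (d : ℝ) (hd : 0 ≤ d) (hu : ∀ i, (1 + d) * u i ≤ ∑ j, M i j * u j) (m : ℕ) :
    ∀ i, (1 + d) ^ m * u i ≤ ∑ j, (M ^ m) i j * u j := by
  induction m with
  | zero =>
    intro i
    simp [Matrix.one_apply]
  | succ m ih =>
    intro i
    have h1 : ∑ j, (M ^ (m + 1)) i j * u j = ∑ k, (M ^ m) i k * ∑ j, M k j * u j := by
      simp only [pow_succ, Matrix.mul_apply, sum_mul, mul_sum]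
      rw [sum_comm]
      refine sum_congr rfl fun k _ => sum_congr rfl fun j _ => ?_
      ring
    rw [h1]
    calc (1 + d) ^ (m + 1) * u i = (1 + d) * ((1 + d) ^ m * u i) := by ring
      _ ≤ (1 + d) * ∑ j, (M ^ m) i j * u j := mul_le_mul_of_nonneg_left (ih i) (by linarith)
      _ = ∑ k, (M ^ m) i k * ((1 + d) * u k) := by
          rw [mul_sum]
          refine sum_congr rfl fun k _ => ?_
          ring
      _ ≤ _ := sum_le_sum fun k _ =>
          mul_le_mul_of_nonneg_left (hu k) (pow_nonneg' M hM m i k)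

theorem main : Pool.Agent.Y552.SJ.S_EVP := by
  intro q M v hM hv hfix hC
  by_cases h0 : ∀ i, 0 ≤ v i
  · exact Or.inl (pos_of_nonneg M v hM hv hfix h0)
  by_cases h0' : ∀ i, v i ≤ 0
  · right
    have h1 := pos_of_nonneg M (-v) hM (neg_ne_zero.2 hv) (fun i => by
      simp only [Pi.neg_apply, mul_neg, sum_neg_distrib]
      rw [hfix i]) (fun i => by
      rw [Pi.neg_apply]; linarith [h0' i])
    intro i
    have := h1 i
    rw [Pi.neg_apply] at this
    linarith
  exfalso
  push Not at h0 h0'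
  obtain ⟨a, ha⟩ := h0
  obtain ⟨b, hb⟩ := h0'
  obtain ⟨C, hC⟩ := hC
  -- strict growth of the absolute values
  have hstrict : ∀ i, |v i| < ∑ j, M i j * |v j| := by
    intro i
    rw [abs_lt]
    constructor
    · have h1 : ∑ j, M i j * (-v j) < ∑ j, M i j * |v j| := by
        refine sum_lt_sum (fun j _ => mul_le_mul_of_nonneg_left (neg_le_abs (v j)) (hM i j).le)
          ⟨b, mem_univ b, mul_lt_mul_of_pos_left ?_ (hM i b)⟩
        rw [abs_of_pos hb]; linarith
      have h2 : ∑ j, M i j * (-v j) = -v i := by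
        simp only [mul_neg, sum_neg_distrib]
        rw [hfix i]
      linarith
    · rw [← hfix i]
      refine sum_lt_sum (fun j _ => mul_le_mul_of_nonneg_left (le_abs_self (v j)) (hM i j).le)
        ⟨a, mem_univ a, mul_lt_mul_of_pos_left ?_ (hM i a)⟩
      rw [abs_of_neg ha]; linarith
  have : Nonempty (Fin q) := ⟨a⟩
  obtain ⟨i0, hi0⟩ := Finite.exists_min
    (fun i : Fin q => (∑ j, M i j * |v j| - |v i|) / (|v i| + 1))
  set d : ℝ := (∑ j, M i0 j * |v j| - |v i0|) / (|v i0| + 1) with hd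
  have hdpos : 0 < d := div_pos (sub_pos.2 (hstrict i0)) (by positivity)
  have hgrow : ∀ i, (1 + d) * |v i| ≤ ∑ j, M i j * |v j| := by
    intro i
    have h1 : d ≤ (∑ j, M i j * |v j| - |v i|) / (|v i| + 1) := hi0 i
    have h2 : (0 : ℝ) < |v i| + 1 := by positivity
    rw [le_div_iff₀ h2] at h1
    nlinarith [abs_nonneg (v i)]
  have hg := growth M hM (fun i => |v i|) d hdpos.le hgrow
  obtain ⟨e, he⟩ := Finite.exists_min (fun x : Fin q × Fin q => M x.1 x.2)
  set c : ℝ := M e.1 e.2 with hc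
  have hcpos : 0 < c := hM _ _
  have hcle : ∀ i j, c ≤ M i j := fun i j => he (i, j)
  set U : ℝ := ∑ j, |v j| with hU
  have hUle : ∀ j, |v j| ≤ U := fun j =>
    single_le_sum (f := fun j => |v j|) (fun k _ => abs_nonneg (v k)) (mem_univ j)
  have hva : 0 < |v a| := abs_pos.2 ha.ne
  have hUpos : 0 < U := hva.trans_le (hUle a)
  have hkey : ∀ m : ℕ, c * ((1 + d) ^ m * |v a|) ≤ U * C := by
    intro m
    have h1 : ∑ j, (M ^ m) a j * M j a ≤ (M ^ (m + 1)).trace := by
      rw [Matrix.trace]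
      have h2 : (M ^ (m + 1)).diag a ≤ ∑ i, (M ^ (m + 1)).diag i :=
        single_le_sum (f := fun i => (M ^ (m + 1)).diag i)
          (fun k _ => pow_nonneg' M hM (m + 1) k k) (mem_univ a)
      refine le_trans (le_of_eq ?_) h2
      rw [Matrix.diag_apply, pow_succ, Matrix.mul_apply]
    have h3 : c * ((1 + d) ^ m * |v a|) ≤ U * ∑ j, (M ^ m) a j * M j a := by
      calc c * ((1 + d) ^ m * |v a|) ≤ c * ∑ j, (M ^ m) a j * |v j| :=
            mul_le_mul_of_nonneg_left (hg m a) hcpos.le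
        _ = ∑ j, |v j| * ((M ^ m) a j * c) := by
            rw [mul_sum]
            refine sum_congr rfl fun j _ => ?_
            ring
        _ ≤ ∑ j, U * ((M ^ m) a j * M j a) := by
            refine sum_le_sum fun j _ => ?_
            have h4 := pow_nonneg' M hM m a j
            exact mul_le_mul (hUle j) (mul_le_mul_of_nonneg_left (hcle j a) h4)
              (mul_nonneg h4 hcpos.le) hUpos.le
        _ = U * ∑ j, (M ^ m) a j * M j a := (mul_sum _ _ _).symm
    exact h3.trans (mul_le_mul_of_nonneg_left (h1.trans (hC (m + 1))) hUpos.le)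
  obtain ⟨m, hm⟩ := pow_unbounded_of_one_lt (U * C / (c * |v a|)) (by linarith : 1 < 1 + d)
  have h5 : 0 < c * |v a| := mul_pos hcpos hva
  rw [div_lt_iff₀ h5] at hm
  have h6 := hkey m
  nlinarith

end Pool.Agent.Y888.SJ.Evp
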